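import Mathlib

namespace Pool.Agent.H.MP_0be93d_co

open Matrix Set Function Cardinal

/-- The unit sphere of `ℝ³`. -/
abbrev S2 := {v : Fin 3 → ℝ // v ⬝ᵥ v = 1}

/-- The orthogonal group `O(3)`. -/
abbrev O3 := Matrix.orthogonalGroup (Fin 3) ℝ

lemma dot (g : O3) (u v : Fin 3 → ℝ) : (g.1 *ᵥ u) ⬝ᵥ (g.1 *ᵥ v) = u ⬝ᵥ v := by
  rw [dotProduct_mulVec, vecMul_mulVec, (mem_orthogonalGroup_iff' _ _).1 g.2, vecMul_one]

/-- The natural action of `O(3)` on the sphere. -/
def act (g : O3) (x : S2) : S2 := ⟨g.1 *ᵥ x.1, (dot g _ _).trans x.2⟩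

/-- `c` is a `Γ`-distinguishing colouring. -/
def Dist (Γ : Set O3) {k : ℕ} (c : S2 → Fin k) : Prop := ∀ g ∈ Γ, c ∘ act g = c → g = 1

/-- The distinguishing number. -/
noncomputable def D (Γ : Set O3) : ℕ := sInf {k | ∃ c : S2 → Fin k, Dist Γ c}

/-- The precolouring extension property `P(W, Γ)`. -/
def P (W : Set S2) (Γ : Set O3) : Prop :=
  ∀ c : ↥Wᶜ → Fin (D Γ), ∃ c' : S2 → Fin (D Γ), (∀ x : ↥Wᶜ, c' x = c x) ∧ Dist Γ c'

/-- There is an uncountable `W` with trivial pointwise stabiliser in `Γ` for which `P(W, Γ)` fails. -/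
def Fails (Γ : Set O3) : Prop := ∃ W : Set S2, ¬ W.Countable ∧ (∀ g ∈ Γ, (∀ x ∈ W, act g x = x) → g = 1) ∧ ¬ P W Γ

lemma act_mul (g h : O3) (x : S2) : act (g * h) x = act g (act h x) := Subtype.ext (mulVec_mulVec x.1 g.1 h.1).symm

lemma act_one (x : S2) : act 1 x = x := Subtype.ext (one_mulVec x.1)

lemma act_inj (g : O3) : Injective (act g) := fun x y h => by
  simpa [← act_mul, act_one] using congrArg (act g⁻¹) h

lemma det_sq (g : O3) : g.1.det = 1 ∨ g.1.det = -1 :=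
  mul_self_eq_one_iff.1 (by simpa using congrArg det ((mem_orthogonalGroup_iff _ _).1 g.2))

lemma rigid {g h : O3} {u v : Fin 3 → ℝ} (e : u ⨯₃ v ≠ 0) (h0 : g.1.det = h.1.det) (h1 : g.1 *ᵥ u = h.1 *ᵥ u)
    (h2 : g.1 *ᵥ v = h.1 *ᵥ v) : g = h := by
  have k : ∀ g : O3, (g.1 *ᵥ u) ⨯₃ (g.1 *ᵥ v) = g.1.det • (g.1 *ᵥ (u ⨯₃ v)) := fun g => by
    have : g.1.adjugate = g.1.det • g.1ᵀ := by
      rw [← one_mul g.1.adjugate, ← (mem_orthogonalGroup_iff' _ _).1 g.2, mul_assoc, mul_adjugate, Matrix.mul_smul, mul_one]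
    rw [← smul_mulVec, ← transpose_transpose (_ • _), transpose_smul, ← this]
    ext i
    fin_cases i <;> simp [adjugate_fin_three, cross_apply, mulVec, dotProduct, Fin.sum_univ_three] <;> ring
  have h3 : g.1 *ᵥ (u ⨯₃ v) = h.1 *ᵥ (u ⨯₃ v) := smul_right_injective _ (show h.1.det ≠ 0 by
    rcases det_sq h with c | c <;> simp [c]) (by simp only [← k h, ← h1, ← h2, k g, h0])
  have h4 : IsUnit (Matrix.of ![u ⨯₃ v, u, v])ᵀ := (isUnit_iff_isUnit_det _).2 (by
    rw [det_transpose]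
    exact ((triple_product_eq_det _ _ _).symm.trans_ne (mt dotProduct_self_eq_zero.1 e)).isUnit)
  refine Subtype.ext (h4.mul_right_cancel ?_)
  ext i j
  fin_cases j
  exacts [congrFun h3 i, congrFun h1 i, congrFun h2 i]

lemma fin2 {T : Set S2} (h : ∀ u ∈ T, ∀ v ∈ T, u.1 ⨯₃ v.1 = 0) : T.Finite := by
  rcases T.eq_empty_or_nonempty with rfl | ⟨u, hu⟩
  · simp
  refine (toFinite {u.1, -u.1}).preimage Subtype.val_injective.injOn |>.subset fun v hv => ?_
  have h1 := cross_dot_cross u.1 v.1 u.1 v.1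
  rw [h u hu v hv, u.2, v.2, dotProduct_comm v.1, zero_dotProduct, mul_one, eq_comm, sub_eq_zero, eq_comm] at h1
  rcases mul_self_eq_one_iff.1 h1 with c | c
  · exact .inl (sub_eq_zero.1 (dotProduct_self_eq_zero.1 (by simp [u.2, v.2, dotProduct_comm v.1 u.1, c])))
  · exact .inr (eq_neg_of_add_eq_zero_left (dotProduct_self_eq_zero.1 (by simp [u.2, v.2, dotProduct_comm v.1 u.1, c])))

lemma trec {I α : Type} [LinearOrder I] [WellFoundedLT I] (R : I → (I → α) → α → Prop) (a : α)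
    (h : ∀ i f, ∃ b, R i f b) (h2 : ∀ i f g b, (∀ j < i, f j = g j) → R i f b → R i g b) : ∃ f, ∀ i, R i f (f i) := by
  choose F hF using h
  let f : I → α := wellFounded_lt.fix fun i g => F i fun j => if h : j < i then g j h else a
  refine ⟨f, fun i => h2 i (fun j => if j < i then f j else a) f _ (fun j hj => if_pos hj) ?_⟩
  rw [show f i = _ from wellFounded_lt.fix_eq _ i]
  exact hF _ _

lemma diag {X : Type} {W : Set X} (hW : ℵ₀ ≤ #W) {𝒢 : Set (X → X)} (h0 : 𝒢.Nonempty) (h1 : #𝒢 ≤ #W)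
    (h2 : ∀ g ∈ 𝒢, Injective g ∧ #W ≤ #{w ∈ W | g w ≠ w}) {r : X → X} (hr : Injective r) (h3 : ∃ w ∈ W, r w ≠ w)
    (c : X → Fin 2) : ∃ T ⊆ W, #W ≤ #T ∧ ∃ c₀ : X → Fin 2, (∀ x ∉ W, c₀ x = c x) ∧
      ∀ c' : X → Fin 2, (∀ x ∉ T, c' x = c₀ x) → ∀ g ∈ insert r 𝒢, c' ∘ g ≠ c' := by
  classical
  have := h0.to_subtype
  obtain ⟨e⟩ := (Cardinal.le_def _ _).1 (h1.trans_eq (mk_ord_toType _).symm)
  let ψ : WithBot (#W).ord.ToType → X → X := WithBot.recBotCoe r fun i => (invFun e i).1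
  have pick : ∀ {A U : Set X}, #W ≤ #A → #U < #W → ∃ x ∈ A, x ∉ U := fun a b =>
    not_subset.1 fun s => (mk_le_mk_of_subset s).not_gt (b.trans_le a)
  obtain ⟨f, hf⟩ := trec (fun i (f : _ → X × X) b => b.1 ∈ W ∧ b.2 ∈ W ∧ ψ i b.1 ≠ b.1 ∧ b.2 ≠ b.1 ∧ b.2 ≠ ψ i b.1 ∧
    ∀ x ∈ ({b.1, ψ i b.1, b.2} : Set X), x ∉ ⋃ j ∈ Iio i, ({(f j).1, ψ j (f j).1, (f j).2} : Set X))
    (h3.choose, h3.choose) (fun i f => by
        have h4 : #(⋃ j ∈ Iio i, ({(f j).1, ψ j (f j).1, (f j).2} : Set X)) < #W := by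
          refine (mk_biUnion_le _ _).trans_lt (mul_lt_of_lt hW ?_ ((ciSup_le' fun j => mk_insert_le.trans
            (add_le_add_left (mk_insert_le.trans_eq (by rw [mk_singleton])) 1)).trans_lt (lt_of_lt_of_le ?_ hW)))
          · induction i with
            | bot => simpa using aleph0_pos.trans_le hW
            | coe i =>
              refine (mk_le_mk_of_subset (t := insert ⊥ ((↑) '' Iio i)) fun j hj => ?_).trans_lt (mk_insert_le.trans_lt
                (add_lt_of_lt hW (mk_image_le.trans_lt (mk_Iio_toType_ord_lt i)) (one_lt_aleph0.trans_le hW)))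
              induction j with
              | bot => simp
              | coe j => simpa using hj
          · exact_mod_cast natCast_lt_aleph0 (n := 3)
        obtain ⟨w, a, b, d⟩ : ∃ w ∈ W, ψ i w ≠ w ∧ ∀ x ∈ ({w, ψ i w} : Set X),
            x ∉ ⋃ j ∈ Iio i, ({(f j).1, ψ j (f j).1, (f j).2} : Set X) := by
          induction i with
          | bot => simpa [ψ] using h3
          | coe i =>
            obtain ⟨w, a, b⟩ := pick (h2 _ (invFun e i).2).2 ((mk_union_le _ _).trans_lt (add_lt_of_lt hW h4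
              ((mk_preimage_of_injective _ _ (h2 _ (invFun e i).2).1).trans_lt h4)))
            exact ⟨w, a.1, a.2, by simpa [not_or, ψ] using b⟩
        obtain ⟨t, k, l⟩ := pick le_rfl (mk_insert_le.trans_lt (add_lt_of_lt hW (mk_insert_le.trans_lt (add_lt_of_lt hW h4
          (one_lt_aleph0.trans_le hW))) (one_lt_aleph0.trans_le hW)) : #↥(insert w (insert (ψ i w) _ : Set X)) < _)
        simp only [mem_insert_iff, not_or] at l
        exact ⟨(w, t), a, k, b, l.1, l.2.1, fun x hx => by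
          rcases hx with rfl | rfl | rfl
          exacts [d _ (by simp), d _ (by simp), l.2.2]⟩) fun i f g b e h => by
      have : (⋃ j ∈ Iio i, ({(f j).1, ψ j (f j).1, (f j).2} : Set X)) = ⋃ j ∈ Iio i, {(g j).1, ψ j (g j).1, (g j).2} :=
        iUnion₂_congr fun j hj => by rw [e j hj]
      rwa [← this]
  · have h4 : ∀ i j, ∀ x ∈ ({(f i).1, ψ i (f i).1, (f i).2} : Set X), x ∈ ({(f j).1, ψ j (f j).1, (f j).2} : Set X) →
        i = j := fun i j x a b => by
      rcases lt_trichotomy i j with h | h | h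
      exacts [((hf j).2.2.2.2.2 x b (mem_biUnion h a)).elim, h, ((hf i).2.2.2.2.2 x a (mem_biUnion h b)).elim]
    refine ⟨range fun i => (f i).2, range_subset_iff.2 fun i => (hf i).2.1, ?_, extend (fun i => (f i).1)
      (fun i => c (ψ i (f i).1) + 1) c, fun x hx => extend_apply' _ _ _ fun ⟨i, h⟩ => hx (h ▸ (hf i).1), fun c' h g hg s => ?_⟩
    · rw [mk_range_eq _ fun i j h => h4 i j (f i).2 (by simp) (by simp [show (f i).2 = _ from h])]
      exact (mk_ord_toType _).ge.trans (mk_le_of_injective WithBot.coe_injective)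
    · obtain ⟨i, rfl⟩ : ∃ i, ψ i = g := hg.elim (fun h => ⟨⊥, h.symm⟩) fun h =>
        ⟨e ⟨g, h⟩, congrArg Subtype.val (leftInverse_invFun e.injective _)⟩
      have h5 := congrFun s (f i).1
      have k1 : ψ i (f i).1 ∉ range fun i => (f i).2 := by
        rintro ⟨j, a⟩
        obtain rfl := h4 j i (f j).2 (by simp) (by rw [show (f j).2 = _ from a]; simp)
        exact (hf j).2.2.2.2.1 a
      have k2 : (f i).1 ∉ range fun i => (f i).2 := by
        rintro ⟨j, a⟩
        obtain rfl := h4 j i (f j).2 (by simp) (by rw [show (f j).2 = _ from a]; simp)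
        exact (hf j).2.2.2.1 a
      have k3 : ¬ ∃ j, (fun i => (f i).1) j = ψ i (f i).1 := by
        rintro ⟨j, a⟩
        obtain rfl := h4 j i (f j).1 (by simp) (by rw [show (f j).1 = _ from a]; simp)
        exact (hf j).2.2.1 a.symm
      rw [Function.comp_apply, h _ k1, h _ k2, extend_apply' _ _ _ k3, Injective.extend_apply fun i j h =>
        h4 i j (f i).1 (by simp) (by simp [show (f i).1 = _ from h])] at h5
      simp at h5

def ng (x : S2) : S2 := ⟨-x.1, by simpa using x.2⟩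

lemma ng_ne (x : S2) : ng x ≠ x := fun h => by
  have h1 := x.2
  rw [show x.1 = 0 from funext fun i => show x.1 i = 0 by linarith [show -x.1 i = x.1 i from congrFun (congrArg Subtype.val h) i]] at h1
  simp at h1

theorem ext {Γ : Set O3} {W : Set S2} (h : 𝔠 < 2 ^ #W) (hs : ∀ g ∈ Γ, (∀ x ∈ W, act g x = x) → g = 1) (c : S2 → Fin 2) :
    ∃ c' : S2 → Fin 2, (∀ x ∉ W, c' x = c x) ∧ Dist Γ c' := by
  classical
  have hW : ℵ₀ ≤ #W := le_of_not_gt fun e => h.not_ge ((power_le_power_left two_ne_zero e.le).trans_eq two_power_aleph0)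
  have hn : Injective ng := fun x y e => Subtype.ext (neg_injective (congrArg Subtype.val e))
  obtain ⟨r, r1, r2, r3⟩ : ∃ r : S2 → S2, Injective r ∧ (∃ w ∈ W, r w ≠ w) ∧
      ∀ g ∈ Γ, g ≠ 1 → #{w ∈ W | act g w ≠ w} < #W → act g = r := by
    by_cases e : ∃ g ∈ Γ, g ≠ 1 ∧ #{w ∈ W | act g w ≠ w} < #W
    · obtain ⟨g, a, b, d⟩ := e
      refine ⟨act g, act_inj g, by simpa using mt (hs g a) b, fun g' a' b' d' => congrArg _ ?_⟩
      have h1 : ¬ {w ∈ W | act g w = w ∧ act g' w = w}.Finite := fun f => ((mk_le_mk_of_subset (s := W) fun w hw => by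
        simp only [mem_union, mem_sep_iff]; tauto).trans ((mk_union_le _ _).trans (add_le_add_left (mk_union_le _ _) _))).not_gt
        (add_lt_of_lt hW (add_lt_of_lt hW d d') (f.lt_aleph0.trans_le hW))
      obtain ⟨u, hu, v, hv, h2⟩ : ∃ u ∈ {w ∈ W | act g w = w ∧ act g' w = w}, ∃ v ∈ {w ∈ W | act g w = w ∧ act g' w = w},
          u.1 ⨯₃ v.1 ≠ 0 := by simpa only [not_forall, exists_prop] using mt fin2 h1
      have k : ∀ g : O3, g ≠ 1 → act g u = u → act g v = v → g.1.det = -1 := fun g a b d => (det_sq g).resolve_left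
        fun e => a (rigid h2 (by simpa) (by simpa [act] using congrArg Subtype.val b) (by simpa [act] using congrArg Subtype.val d))
      exact rigid h2 ((k g' b' hu.2.2 hv.2.2).trans (k g b hu.2.1 hv.2.1).symm)
        (congrArg Subtype.val (hu.2.2.trans hu.2.1.symm)) (congrArg Subtype.val (hv.2.2.trans hv.2.1.symm))
    · obtain ⟨w⟩ := mk_ne_zero_iff.1 (aleph0_pos.trans_le hW).ne'
      exact ⟨ng, hn, ⟨w, w.2, ng_ne w⟩, fun g a b d => (e ⟨g, a, b, d⟩).elim⟩
  let G₀ : Set O3 := {g | ∃ p : W × W × W × W, p.1.1.1 ⨯₃ p.2.1.1.1 ≠ 0 ∧ act g p.1 = p.2.2.1 ∧ act g p.2.1 = p.2.2.2}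
  have h0 : #G₀ ≤ #W := by
    refine (mk_le_of_injective (f := fun g : G₀ => (g.2.choose, decide (g.1.1.det = 1))) fun g g' e => ?_).trans
      (by simpa [mul_eq_self hW] using (mul_eq_left hW (natCast_lt_aleph0 (n := 2).le.trans hW) (by simp)).le)
    obtain ⟨e1, e2⟩ := Prod.ext_iff.1 e
    obtain ⟨a, b, d⟩ := g.2.choose_spec
    obtain ⟨-, b', d'⟩ := g'.2.choose_spec
    dsimp only at e1
    rw [← e1] at b' d'
    refine Subtype.ext (rigid a ?_ (congrArg Subtype.val (b.trans b'.symm)) (congrArg Subtype.val (d.trans d'.symm)))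
    rcases det_sq g.1 with x | x <;> rcases det_sq g'.1 with y | y <;> simp [x, y] at e2 ⊢ <;> norm_num at e2
  obtain ⟨T, t1, t2, c₀, t3, t4⟩ := diag hW (𝒢 := insert ng (act '' {g ∈ G₀ | #W ≤ #{w ∈ W | act g w ≠ w}}))
    (insert_nonempty _ _) (mk_insert_le.trans (add_le_of_le hW (mk_image_le.trans ((mk_le_mk_of_subset
      (sep_subset _ _)).trans h0)) (one_le_aleph0.trans hW))) (by
      rintro _ (rfl | ⟨g, a, rfl⟩)
      exacts [⟨hn, by simp [ng_ne]⟩, ⟨act_inj g, a.2⟩]) r1 r2 c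
  let col : (T → Fin 2) → S2 → Fin 2 := fun e x => if h : x ∈ T then e ⟨x, h⟩ else c₀ x
  have h1 : #(⋃ g ∈ G₀ᶜ, {e | col e ∘ act g = col e}) ≤ 𝔠 := by
    refine (mk_biUnion_le _ _).trans ((mul_le_mul' ((mk_set_le _).trans (mk_subtype_le _)) (ciSup_le' fun g =>
      (Finite.lt_aleph0 ?_).le)).trans (by
        have : ∀ a : Cardinal.{0}, a = 𝔠 → a ^ (3 : Cardinal) = 𝔠 := fun a e => by
          rw [e]; exact_mod_cast (power_natCast 𝔠 3).trans (power_nat_eq aleph0_le_continuum (by norm_num))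
        simp [Matrix, mk_real, this]))
    have h2 : {u : S2 | u ∈ T ∧ act g u ∈ W}.Finite := fin2 fun u hu v hv => by_contra fun a =>
      g.2 ⟨(⟨u, t1 hu.1⟩, ⟨v, t1 hv.1⟩, ⟨_, hu.2⟩, ⟨_, hv.2⟩), a, rfl, rfl⟩
    have := h2.to_subtype
    refine Finite.of_finite_image (f := fun e (u : {u : S2 | u ∈ T ∧ act g u ∈ W}) => e ⟨u, u.2.1⟩) (toFinite _)
      fun e a e' b s => funext fun u => ?_
    by_cases k : act g u ∈ W
    · exact congrFun s ⟨u, u.2, k⟩
    · have k1 := congrFun a u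
      have k2 := congrFun b u
      simp only [Function.comp_apply, col, mt (@t1 _) k, u.2, dif_pos, dif_neg, not_false_iff] at k1 k2
      exact k1.symm.trans k2
  obtain ⟨e, he⟩ : ∃ e, e ∉ ⋃ g ∈ G₀ᶜ, {e | col e ∘ act g = col e} := by
    by_contra! a
    rw [eq_univ_of_forall a, mk_univ] at h1
    exact h.not_ge ((power_le_power_left two_ne_zero t2).trans (by simpa using h1))
  refine ⟨col e, fun x hx => (dif_neg (mt (@t1 _) hx)).trans (t3 x hx), fun g a b => by_contra fun d =>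
    t4 (col e) (fun x hx => dif_neg hx) (act g) ?_ b⟩
  rcases lt_or_ge #{w ∈ W | act g w ≠ w} #W with k | k
  · exact .inl (r3 g a d k)
  · exact .inr (.inr ⟨g, ⟨by_contra fun l => he (mem_biUnion l b), k⟩, rfl⟩)

end Pool.Agent.H.MP_0be93d_co
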