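import Pool.Agent.H.MP_0be93d_co.A

namespace Pool.Agent.H.MP_0be93d_co

open Matrix Set Function Cardinal

section
variable {A B : Type} [CommRing A] [CommRing B] {ι : Type}

def R (a : Fin 4 → A) : Matrix (Fin 3) (Fin 3) A :=
  !![a 0 ^ 2 + a 1 ^ 2 - a 2 ^ 2 - a 3 ^ 2, 2 * (a 1 * a 2 - a 0 * a 3), 2 * (a 1 * a 3 + a 0 * a 2);
    2 * (a 1 * a 2 + a 0 * a 3), a 0 ^ 2 - a 1 ^ 2 + a 2 ^ 2 - a 3 ^ 2, 2 * (a 2 * a 3 - a 0 * a 1);
    2 * (a 1 * a 3 - a 0 * a 2), 2 * (a 2 * a 3 + a 0 * a 1), a 0 ^ 2 - a 1 ^ 2 - a 2 ^ 2 + a 3 ^ 2]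

def ap (a : ι → Fin 4 → A) (u : Fin 3 → A) (L : List (ι × Bool)) : Fin 3 → A :=
  L.foldr (fun p u => cond p.2 (R (a p.1)) (R (a p.1))ᵀ *ᵥ u) u

lemma ap_map (φ : A →+* B) (a : ι → Fin 4 → A) (u : Fin 3 → A) (L : List (ι × Bool)) :
    φ ∘ ap a u L = ap (fun d => φ ∘ a d) (φ ∘ u) L := by
  induction L with
  | nil => rfl
  | cons p L ih =>
    have h : (R (a p.1)).map φ = R (φ ∘ a p.1) := by
      ext i j
      fin_cases i <;> fin_cases j <;> simp [R, map_ofNat]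
    ext i
    refine (φ.map_mulVec (cond p.2 (R (a p.1)) (R (a p.1))ᵀ) (ap a u L) i).trans ?_
    rw [ih]
    obtain ⟨d, _ | _⟩ := p
    exacts [congrArg (fun m => (mᵀ *ᵥ _) i) h, congrArg (fun m => (m *ᵥ _) i) h]

lemma cross_map (φ : A →+* B) (u v : Fin 3 → A) : φ ∘ (u ⨯₃ v) = (φ ∘ u) ⨯₃ (φ ∘ v) := by
  ext i
  fin_cases i <;> simp [cross_apply]

end

open Complex in
def nn (s : ℝ) : Fin 3 → ℂ := ![1 - s ^ 2, I * (1 + s ^ 2), 2 * s]

open Complex in
def qq (s t : ℝ) : Fin 4 → ℂ := ![I * (s - t), 1 - s * t, I * (1 + s * t), s + t]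

lemma R_qq (s t : ℝ) : R (qq s t) = 2 • vecMulVec (nn s) (nn t) := by
  have := Complex.I_sq
  ext i j
  fin_cases i <;> fin_cases j <;> simp [R, qq, nn, vecMulVec] <;> grind

lemma ap_qq {ι : Type} {σ : ι × Bool → ℝ} (hσ : Injective σ) (p : ι × Bool) (L : List (ι × Bool))
    (h : FreeGroup.IsReduced (p :: L)) :
    ∃ c : ℂ, c ≠ 0 ∧ ap (fun d => qq (σ (d, true)) (σ (d, false))) ![0, 1, 0] (p :: L) = c • nn (σ p) := by
  have k : ∀ (p : ι × Bool) u, cond p.2 (R (qq (σ (p.1, true)) (σ (p.1, false))))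
      (R (qq (σ (p.1, true)) (σ (p.1, false))))ᵀ *ᵥ u = (2 * (nn (σ (p.1, !p.2)) ⬝ᵥ u)) • nn (σ p) := by
    rintro ⟨d, _ | _⟩ u <;> ext i <;> simp [R_qq, mulVec, dotProduct, vecMulVec, Fin.sum_univ_three] <;> ring
  induction L generalizing p with
  | nil =>
    refine ⟨_, ?_, k p _⟩
    simpa [nn] using show ((1 + σ (p.1, !p.2) ^ 2 : ℝ) : ℂ) ≠ 0 by exact_mod_cast by positivity
  | cons q L ih =>
    obtain ⟨c, h1, h2⟩ := ih q (FreeGroup.isReduced_cons_cons.1 h).2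
    refine ⟨_, ?_, (k p _).trans (congrArg (fun u => (2 * (_ ⬝ᵥ u)) • _) h2)⟩
    have h3 : ∀ s t, nn s ⬝ᵥ nn t = -2 * (s - t) ^ 2 := fun s t => by
      have := Complex.I_sq
      simp [nn]
      grind
    have h4 : σ (p.1, !p.2) ≠ σ q := fun e => by
      have := (FreeGroup.isReduced_cons_cons.1 h).1
      rw [← hσ e] at this
      simp at this
    simp [h3, h1, sub_eq_zero, h4]

lemma exx {ι : Type} (h : #ι ≤ 𝔠) : ∃ x : ι → ℝ, Injective x ∧ (∀ i, x i ≠ 0) ∧ ∃ φ : MvPolynomial ι ℚ →+* ℝ,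
    Injective φ ∧ ∀ i, φ (.X i) = x i := by
  obtain ⟨J, y, hy⟩ := exists_isTranscendenceBasis' ℚ ℝ
  have : Nonempty J := hy.nonempty_iff_transcendental.2 ⟨by
    by_contra! a
    have : Algebra.IsAlgebraic ℚ ℝ := ⟨fun x => not_not.1 (a x)⟩
    simpa [mk_real, aleph0_lt_continuum.not_ge] using Algebra.IsAlgebraic.cardinalMk_le_max ℚ ℝ⟩
  have h1 := hy.lift_cardinalMk_eq_max_lift
  simp only [lift_id, mk_real, Cardinal.mkRat] at h1
  obtain ⟨e⟩ := (Cardinal.le_def _ _).1 (h.trans (le_of_not_gt fun a : #J < 𝔠 =>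
    (sup_lt_iff.2 ⟨sup_lt_iff.2 ⟨aleph0_lt_continuum, a⟩, aleph0_lt_continuum⟩).ne' h1))
  have h2 := hy.1.comp e e.injective
  exact ⟨_, h2.injective, h2.ne_zero, (MvPolynomial.aeval _).toRingHom, algebraicIndependent_iff_injective_aeval.1 h2,
    fun i => MvPolynomial.aeval_X _ _⟩

lemma free {K : Type} (hK : #(K → Fin 2) ≤ 𝔠) : ∃ (ρ : FreeGroup (K → Fin 2) →* O3) (v : K → S2),
    (∀ d, (ρ (.of d)).1.det = 1) ∧ (Injective fun p : _ × K => act (ρ p.1) (v p.2)) ∧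
    ∀ k : Fin 3 → K, Injective k → (Matrix.of fun i j => (v (k j)).1 i).det ≠ 0 := by
  classical
  obtain ⟨x, x1, x2, φ, φ1, φ2⟩ := exx (ι := (K → Fin 2) × Fin 4 ⊕ K × Fin 3) (by
    have : #K ≤ 𝔠 := (cantor _).le.trans (by simpa using hK)
    rw [mk_sum, mk_prod, mk_prod]
    simp only [lift_id]
    exact add_le_of_le aleph0_le_continuum ((mul_le_mul' hK (lt_aleph0_of_finite _).le).trans_eq (by simp))
      ((mul_le_mul' this (lt_aleph0_of_finite _).le).trans_eq (by simp)))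
  have ψ : ∀ y : _ → ℂ, ∃ ψ : MvPolynomial ((K → Fin 2) × Fin 4 ⊕ K × Fin 3) ℚ →+* ℂ, ∀ i, ψ (.X i) = y i := fun y =>
    ⟨(MvPolynomial.aeval y).toRingHom, fun i => MvPolynomial.aeval_X _ _⟩
  obtain ⟨N, hN⟩ : ∃ N : _ → ℝ, ∀ d, N d = x (.inl (d, 0)) ^ 2 + x (.inl (d, 1)) ^ 2 + x (.inl (d, 2)) ^ 2 +
    x (.inl (d, 3)) ^ 2 := ⟨_, fun _ => rfl⟩
  have N0 : ∀ d, N d ≠ 0 := fun d => by have := x2 (.inl (d, 0)); rw [hN]; positivity
  let g : (K → Fin 2) → O3 := fun d => ⟨(N d)⁻¹ • R fun i => x (.inl (d, i)), (mem_orthogonalGroup_iff _ _).2 (by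
    have : (R fun i => x (.inl (d, i))) * (R fun i => x (.inl (d, i)))ᵀ = (N d * N d) • 1 := by
      ext i j
      fin_cases i <;> fin_cases j <;> simp [R, mul_apply, Fin.sum_univ_three, hN] <;> ring
    rw [transpose_smul, smul_mul_smul_comm, this, smul_smul, ← mul_inv, inv_mul_cancel₀ (by simp [N0]), one_smul])⟩
  obtain ⟨M, hM⟩ : ∃ M : K → ℝ, ∀ k, M k = √((fun i => x (.inr (k, i))) ⬝ᵥ fun i => x (.inr (k, i))) := ⟨_, fun _ => rfl⟩
  have M1 : ∀ k, 0 < (fun i => x (.inr (k, i))) ⬝ᵥ fun i => x (.inr (k, i)) := fun k => by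
    have := mul_self_pos.2 (x2 (.inr (k, 0)))
    simp only [dotProduct, Fin.sum_univ_three]
    nlinarith [mul_self_nonneg (x (.inr (k, 1))), mul_self_nonneg (x (.inr (k, 2)))]
  have M0 : ∀ k, M k ≠ 0 := fun k => by rw [hM]; exact (Real.sqrt_pos.2 (M1 k)).ne'
  let v : K → S2 := fun k => ⟨(M k)⁻¹ • fun i => x (.inr (k, i)), by
    rw [smul_dotProduct, dotProduct_smul, ← Real.mul_self_sqrt (M1 k).le, ← hM]
    simp [M0]⟩
  have hv : ∀ k, (fun i => x (.inr (k, i))) = M k • (v k).1 := fun k => (smul_inv_smul₀ (M0 k) _).symm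
  have h1 : ∀ L u, ∃ c : ℝ, ap (fun d i => x (.inl (d, i))) u L = c • (FreeGroup.lift g (.mk L)).1 *ᵥ u := fun L u => by
    induction L with
    | nil => exact ⟨1, by simp [ap]⟩
    | cons p L ih =>
      obtain ⟨c, hc⟩ := ih
      refine ⟨c * N p.1, (congrArg (_ *ᵥ ·) hc).trans ?_⟩
      rw [FreeGroup.lift_mk, FreeGroup.lift_mk, List.map_cons, List.prod_cons, Submonoid.coe_mul, ← mulVec_mulVec,
        mulVec_smul, mul_smul, ← smul_mulVec (N p.1)]
      obtain ⟨d, _ | _⟩ := p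
      · simp [g, N0, star_eq_conjTranspose]
      · simp [g, N0]
  have h2 : ∀ w k k', act (FreeGroup.lift g w) (v k) = v k' → w = 1 ∧ k = k' := fun w k k' e => by
    obtain ⟨c, hc⟩ := h1 w.toWord fun i => x (.inr (k, i))
    have h3 : ap (fun d i => (.X (.inl (d, i)) : MvPolynomial ((K → Fin 2) × Fin 4 ⊕ K × Fin 3) ℚ))
        (fun i => .X (.inr (k, i))) w.toWord ⨯₃ (fun i => .X (.inr (k', i))) = 0 := funext fun i => φ1 (by
      refine (congrFun (cross_map φ _ _) i).trans ?_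
      rw [ap_map]
      simp only [Function.comp_def, φ2, hc, FreeGroup.mk_toWord]
      rw [hv, hv k', mulVec_smul, show (FreeGroup.lift g w).1 *ᵥ (v k).1 = (v k').1 from
        congrArg Subtype.val e]
      simp)
    have h4 : ∀ y : (K → Fin 2) × Fin 4 ⊕ K × Fin 3 → ℂ, ap (fun d i => y (.inl (d, i))) (fun i => y (.inr (k, i))) w.toWord ⨯₃
        (fun i => y (.inr (k', i))) = 0 := fun y => by
      obtain ⟨ψ, hψ⟩ := ψ y
      have := cross_map ψ _ _ ▸ congrArg (ψ ∘ ·) h3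
      rw [ap_map] at this
      simp only [Function.comp_def, hψ, Pi.zero_apply, map_zero] at this
      exact this
    rcases h5 : w.toWord with _ | ⟨p, L⟩
    · refine ⟨FreeGroup.toWord_eq_nil_iff.1 h5, by_contra fun a => ?_⟩
      have := congrFun (h4 (Sum.elim 0 fun q => (Pi.single (if q.1 = k then 0 else 1) 1 : Fin 3 → ℂ) q.2)) 2
      simp [h5, ap, Ne.symm a, cross_apply] at this
    · obtain ⟨c, c1, c2⟩ := ap_qq (σ := fun q => x (.inl (q.1, cond q.2 0 1))) (by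
        rintro ⟨a, _ | _⟩ ⟨b, _ | _⟩ e <;> simpa using x1 e) p L (h5 ▸ FreeGroup.isReduced_toWord)
      have := h4 (Sum.elim (fun q => qq (x (.inl (q.1, 0))) (x (.inl (q.1, 1))) q.2) fun q => ![0, 1, 0] q.2)
      rw [h5] at this
      have := congrFun ((congrArg (· ⨯₃ ![0, 1, 0]) c2).symm.trans this) 0
      simp [cross_apply, nn, c1, x2] at this
  refine ⟨FreeGroup.lift g, v, fun d => ?_, fun p q e => ?_, fun k hk e => ?_⟩
  · have : (R fun i => x (.inl (d, i))).det = N d ^ 3 := by simp [R, det_fin_three, hN]; ring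
    simp [g, this, N0]
  · obtain ⟨a, b⟩ := h2 (q.1⁻¹ * p.1) p.2 q.2 (by
      rw [map_mul, act_mul, show act _ _ = _ from e, ← act_mul, ← map_mul, inv_mul_cancel, map_one, act_one])
    exact Prod.ext (inv_mul_eq_one.1 a).symm b
  · obtain ⟨ψ, hψ⟩ := ψ (Sum.elim 0 fun q => if q.1 = k q.2 then 1 else 0)
    have h3 : (Matrix.of fun i j => (.X (.inr (k j, i)) : MvPolynomial ((K → Fin 2) × Fin 4 ⊕ K × Fin 3) ℚ)).det = 0 :=
      φ1 (by
        rw [φ.map_det, map_zero, show φ.mapMatrix (Matrix.of fun i j => .X (.inr (k j, i))) = Matrix.of fun i j => M (k j) * (v (k j)).1 i from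
          Matrix.ext fun i j => (φ2 _).trans (congrFun (hv _) i), det_mul_row]
        exact mul_eq_zero_of_right _ e)
    have h4 := ψ.map_det (Matrix.of fun i j => .X (.inr (k j, i)))
    rw [h3, map_zero, show ψ.mapMatrix _ = 1 from Matrix.ext fun i j => by
      simp [hψ, hk.eq_iff, one_apply, eq_comm]] at h4
    simp at h4

lemma hD {Γ : Set O3} (h : {g : O3 | g.1.det = 1} ⊆ Γ) : D Γ = 2 := by
  obtain ⟨c, -, hc⟩ := ext (Γ := Γ) (W := univ) ((cantor _).trans_le (power_le_power_left two_ne_zero (by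
    rw [mk_univ, ← mk_Icc_real (show (-1 : ℝ) < 1 by norm_num)]
    exact mk_le_of_injective (f := fun t => ⟨![t, √(1 - t * t), 0], by
      simp [Real.mul_self_sqrt (show 0 ≤ 1 - t.1 * t by nlinarith [t.2.1, t.2.2])]⟩) fun t s e =>
        Subtype.ext (congrFun (congrArg Subtype.val e) 0)))) (fun g _ e => Subtype.ext (Matrix.ext fun i j => by
      simpa [act, one_apply, Pi.single_apply] using
        congrFun (congrArg Subtype.val (e ⟨Pi.single j 1, by simp⟩ trivial)) i)) 0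
  refine le_antisymm (Nat.sInf_le ⟨c, hc⟩) (le_csInf ⟨2, c, hc⟩ fun k ⟨c, hc⟩ => by_contra fun a => ?_)
  have := Fin.subsingleton_iff_le_one.2 (show k ≤ 1 by omega)
  have h1 := congrFun₂ (congrArg Subtype.val (hc ⟨diagonal ![1, -1, -1], (mem_orthogonalGroup_iff _ _).2 (by
    ext i j
    fin_cases i <;> fin_cases j <;> simp)⟩ (h (by simp [Fin.prod_univ_three])) (Subsingleton.elim _ _))) 1 1
  norm_num at h1

theorem main {Γ : Set O3} (h : {g : O3 | g.1.det = 1} ⊆ Γ) : Fails Γ ↔ (2 : Cardinal.{0}) ^ ℵ₁ = 𝔠 := by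
  classical
  unfold Fails P
  rw [hD h]
  refine ⟨fun ⟨W, a, b, c⟩ => by_contra fun e => c fun d => ?_, fun e => ?_⟩
  · obtain ⟨c', h1, h2⟩ := ext (((two_power_aleph0.ge.trans (power_le_power_left two_ne_zero
      aleph0_lt_aleph_one.le)).lt_of_ne' e).trans_le (power_le_power_left two_ne_zero
        (le_of_not_gt (mt (countable_iff_lt_aleph_one _).2 a)))) b (extend Subtype.val d 0)
    exact ⟨c', fun x => (h1 x x.2).trans (Subtype.val_injective.extend_apply _ _ x), h2⟩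
  obtain ⟨ρ, v, h1, h2, h3⟩ := free (K := (ℵ₁ : Cardinal.{0}).out) (by simp [e])
  have hv : Injective v := fun k k' e => congrArg Prod.snd (@h2 (1, k) (1, k') (congrArg _ e))
  have : Infinite (ℵ₁ : Cardinal.{0}).out := infinite_iff.2 (by simp [aleph0_lt_aleph_one.le])
  let k : Fin 3 → (ℵ₁ : Cardinal.{0}).out := fun i => Infinite.natEmbedding _ i
  refine ⟨range v, fun a => ?_, fun g _ a => ?_, fun a => ?_⟩
  · simpa [mk_range_eq _ hv] using (countable_iff_lt_aleph_one _).1 a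
  · refine Subtype.ext (((isUnit_iff_isUnit_det _).2 (h3 k fun i j e => Fin.ext
      ((Infinite.natEmbedding _).injective e)).isUnit).mul_right_cancel ?_)
    rw [OneMemClass.coe_one, one_mul]
    exact Matrix.ext fun i j => congrFun (congrArg Subtype.val (a _ ⟨k j, rfl⟩)) i
  obtain ⟨c, h4, h5⟩ := a fun x => extend (fun p : _ × _ => act (ρ p.1) (v p.2))
    (fun p => p.1.toWord.getLast?.elim 0 fun l => l.1 p.2) 0 x.1
  obtain ⟨d, hd⟩ : ∃ d : _ → Fin 2, ∀ k, d k = c (v k) := ⟨_, fun _ => rfl⟩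
  have h6 : ∀ w k, c (act (ρ w) (v k)) = w.toWord.getLast?.elim (d k) fun l => l.1 k := fun w k => by
    rcases eq_or_ne w 1 with rfl | a
    · simp [act_one, hd]
    rw [h4 ⟨_, fun ⟨j, b⟩ => a (congrArg Prod.fst (@h2 (w, k) (1, j) (by simp [act_one, b])))⟩, h2.extend_apply _ _ (w, k)]
    rcases b : w.toWord.getLast? with _ | l
    · simp [FreeGroup.toWord_eq_nil_iff, a] at b
    · rfl
  refine FreeGroup.of_ne_one d (congrArg Prod.fst (@h2 (.of d, k 0) (1, k 0) (congrArg (act · _)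
    ((h5 _ (h (h1 d)) (funext fun x => ?_)).trans (map_one ρ).symm))))
  by_cases b : ∃ p : _ × _, act (ρ p.1) (v p.2) = x
  · obtain ⟨⟨w, k⟩, rfl⟩ := b
    rw [Function.comp_apply, ← act_mul, ← map_mul, h6, h6, FreeGroup.toWord_mul, FreeGroup.toWord_of, List.singleton_append,
      FreeGroup.reduce.cons, FreeGroup.reduce_toWord]
    rcases w.toWord with _ | ⟨p, _ | ⟨q, L⟩⟩
    · rfl
    all_goals
      dsimp only
      split_ifs with s
      · simp [s.1]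
      · simp
  · have b' : ¬ ∃ p : _ × _, act (ρ p.1) (v p.2) = act (ρ (.of d)) x := fun ⟨p, s⟩ => b ⟨((.of d)⁻¹ * p.1, p.2), by
      rw [map_mul, act_mul, s, ← act_mul, ← map_mul, inv_mul_cancel, map_one, act_one]⟩
    rw [Function.comp_apply, h4 ⟨_, fun ⟨j, s⟩ => b' ⟨(1, j), by simp [act_one, s]⟩⟩,
      h4 ⟨_, fun ⟨j, s⟩ => b ⟨(1, j), by simp [act_one, s]⟩⟩, extend_apply' _ _ _ b, extend_apply' _ _ _ b']
    rfl

end Pool.Agent.H.MP_0be93d_co
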